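import Mathlib
import Pool.Agent.Results.MP_25490b_co.CubicPermutations

set_option autoImplicit false

/-!
# Geometric permutations in all dimensions: affine pieces, coordinates and parameters
-/

namespace Pool.Agent.Y423.GP

open Pool.Agent.Results.MP_25490b_co.CubicPermutations

/-! ### Affine functions and polyhedral sets -/

/-- Affine functions on `E d`. -/
structure Aff {d : ℕ} (f : E d → ℝ) : Prop where
  cont : Continuous f
  comb : ∀ x y : E d, ∀ u v : ℝ, u + v = 1 → f (u • x + v • y) = u * f x + v * f y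

lemma Aff.coord {d : ℕ} (i : Fin d) : Aff (fun x : E d => x i) := by
  refine ⟨by fun_prop, ?_⟩
  intro x y u v _
  simp only [PiLp.add_apply, PiLp.smul_apply, smul_eq_mul]

lemma Aff.const {d : ℕ} (c : ℝ) : Aff (fun _ : E d => c) := by
  refine ⟨continuous_const, ?_⟩
  intro x y u v h
  rw [← add_mul, h, one_mul]

lemma Aff.add {d : ℕ} {f h : E d → ℝ} (hf : Aff f) (hh : Aff h) : Aff (fun x => f x + h x) := by
  refine ⟨hf.cont.add hh.cont, ?_⟩
  intro x y u v huv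
  rw [hf.comb x y u v huv, hh.comb x y u v huv]; ring

lemma Aff.cmul {d : ℕ} {f : E d → ℝ} (c : ℝ) (hf : Aff f) : Aff (fun x => c * f x) := by
  refine ⟨continuous_const.mul hf.cont, ?_⟩
  intro x y u v huv
  rw [hf.comb x y u v huv]; ring

/-- closed convex sets -/
def Poly {d : ℕ} (S : Set (E d)) : Prop := IsClosed S ∧ Convex ℝ S

lemma Poly.and {d : ℕ} {P Q : E d → Prop} (h1 : Poly {x | P x}) (h2 : Poly {x | Q x}) :
    Poly {x | P x ∧ Q x} := ⟨h1.1.inter h2.1, h1.2.inter h2.2⟩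

lemma Poly.all {d : ℕ} {κ : Type} {P : κ → E d → Prop} (h : ∀ k, Poly {x | P k x}) :
    Poly {x | ∀ k, P k x} := by
  have e : {x : E d | ∀ k, P k x} = ⋂ k, {x | P k x} := by
    ext x; simp
  rw [e]
  exact ⟨isClosed_iInter fun k => (h k).1, convex_iInter fun k => (h k).2⟩

lemma Poly.le {d : ℕ} {f h : E d → ℝ} (hf : Aff f) (hh : Aff h) : Poly {x | f x ≤ h x} := by
  refine ⟨isClosed_le hf.cont hh.cont, ?_⟩
  intro x hx y hy u v hu hv huv
  change f (u • x + v • y) ≤ h (u • x + v • y)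
  rw [hf.comb x y u v huv, hh.comb x y u v huv]
  exact add_le_add (mul_le_mul_of_nonneg_left hx hu) (mul_le_mul_of_nonneg_left hy hv)

lemma Poly.eq {d : ℕ} {f h : E d → ℝ} (hf : Aff f) (hh : Aff h) : Poly {x | f x = h x} := by
  have e : {x : E d | f x = h x} = {x | f x ≤ h x ∧ h x ≤ f x} := by
    ext x
    exact ⟨fun h => ⟨le_of_eq h, le_of_eq (Eq.symm h)⟩, fun h => le_antisymm h.1 h.2⟩
  rw [e]
  exact Poly.and (Poly.le hf hh) (Poly.le hh hf)

/-- box -/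
def BoxD (d : ℕ) (M : ℝ) : Set (E d) := {x | ∀ i, |x i| ≤ M}

lemma isCompact_BoxD (d : ℕ) (M : ℝ) : IsCompact (BoxD d M) := by
  have h : BoxD d M =
      (EuclideanSpace.equiv (Fin d) ℝ) ⁻¹' (Set.Icc (fun _ => -M) (fun _ => M)) := by
    ext x
    simp only [BoxD, Set.mem_ofPred_eq, Set.mem_preimage, Set.mem_Icc, Pi.le_def, abs_le]
    constructor
    · intro h; exact ⟨fun i => (h i).1, fun i => (h i).2⟩
    · intro h i; exact ⟨h.1 i, h.2 i⟩
  rw [h]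
  exact (EuclideanSpace.equiv (Fin d) ℝ).toHomeomorph.isCompact_preimage.mpr isCompact_Icc

lemma convex_BoxD (d : ℕ) (M : ℝ) : Convex ℝ (BoxD d M) := by
  intro x hx y hy u v hu hv huv i
  have h1 := abs_le.mp (hx i)
  have h2 := abs_le.mp (hy i)
  simp only [PiLp.add_apply, PiLp.smul_apply, smul_eq_mul]
  rw [abs_le]
  have hv' : v = 1 - u := by linarith
  constructor
  · nlinarith [mul_nonneg hu (by linarith [h1.1] : (0:ℝ) ≤ x i + M),
      mul_nonneg hv (by linarith [h2.1] : (0:ℝ) ≤ y i + M)]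
  · nlinarith [mul_nonneg hu (by linarith [h1.2] : (0:ℝ) ≤ M - x i),
      mul_nonneg hv (by linarith [h2.2] : (0:ℝ) ≤ M - y i)]

/-! ### Coordinates -/

section coords

variable {d p q : ℕ} (σ : Fin d ≃ Option (Fin p ⊕ Fin q))

/-- the coordinate along which the lines advance -/
def tC (x : E d) : ℝ := x (σ.symm none)

/-- the first coordinate of a pair -/
def xC (a : Fin p) (x : E d) : ℝ := x (σ.symm (some (Sum.inl a)))

/-- the second coordinate of a pair (or a single coordinate) -/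
def yC (b : Fin q) (x : E d) : ℝ := x (σ.symm (some (Sum.inr b)))

/-- the point with given coordinates -/
noncomputable def pt (t : ℝ) (X : Fin p → ℝ) (Y : Fin q → ℝ) : E d :=
  WithLp.toLp 2 (fun i => match σ i with
    | none => t
    | some (Sum.inl a) => X a
    | some (Sum.inr b) => Y b)

lemma tC_pt (t : ℝ) (X : Fin p → ℝ) (Y : Fin q → ℝ) : tC σ (pt σ t X Y) = t := by
  simp [tC, pt]

lemma xC_pt (t : ℝ) (X : Fin p → ℝ) (Y : Fin q → ℝ) (a : Fin p) :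
    xC σ a (pt σ t X Y) = X a := by
  simp [xC, pt]

lemma yC_pt (t : ℝ) (X : Fin p → ℝ) (Y : Fin q → ℝ) (b : Fin q) :
    yC σ b (pt σ t X Y) = Y b := by
  simp [yC, pt]

lemma tC_line (x v : E d) (u : ℝ) : tC σ (x + u • v) = tC σ x + u * tC σ v := by
  simp [tC]

lemma xC_line (x v : E d) (u : ℝ) (a : Fin p) :
    xC σ a (x + u • v) = xC σ a x + u * xC σ a v := by
  simp [xC]

lemma yC_line (x v : E d) (u : ℝ) (b : Fin q) :
    yC σ b (x + u • v) = yC σ b x + u * yC σ b v := by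
  simp [yC]

lemma aff_tC : Aff (tC σ) := Aff.coord _

lemma aff_xC (a : Fin p) : Aff (xC σ a) := Aff.coord _

lemma aff_yC (b : Fin q) : Aff (yC σ b) := Aff.coord _

end coords

/-! ### Parameters -/

/-- half-width of the middle region -/
noncomputable def WW (m q : ℕ) : ℝ := 3 * HH m * ((q : ℝ) + 1)

/-- step of the slopes -/
noncomputable def ga (m q : ℕ) : ℝ := 1 / (1000 * ((m : ℝ) + 1) * (WW m q) ^ 2)

/-- position of the gadget with index `b` -/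
noncomputable def ta (m b : ℕ) : ℝ := 3 * HH m * (b : ℝ)

/-- depth of the long plate of rank `ρ` -/
noncomputable def EP (m ρ : ℕ) : ℝ := HH m * (16 * ((m : ℝ) + 1)) ^ (ρ + 1)

/-- half-length of the long plate of rank `ρ` -/
noncomputable def RP (m q ρ : ℕ) : ℝ := WW m q + 2 * (EP m ρ + HH m) / ga m q

/-- lower bound for the coordinates on the long plate of rank `ρ` -/
noncomputable def QP (m ρ : ℕ) : ℝ := 3 * ((m : ℝ) + 1) * (EP m ρ + HH m)

lemma WW_ge (m q : ℕ) : 3 * HH m ≤ WW m q := by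
  unfold WW
  have := HH_pos m
  have hq : (0:ℝ) ≤ (q:ℝ) := Nat.cast_nonneg q
  nlinarith

lemma WW_ge6 (m q : ℕ) : 6 ≤ WW m q := by
  have := WW_ge m q
  have := HH_ge m
  linarith

lemma ga_pos (m q : ℕ) : 0 < ga m q := by
  have := WW_ge6 m q
  unfold ga; positivity

lemma ga_W2 (m q : ℕ) : ((m : ℝ) + 1) * ga m q * (WW m q) ^ 2 = 1 / 1000 := by
  have h := WW_ge6 m q
  have h1 : WW m q ≠ 0 := by linarith
  have h2 : (m : ℝ) + 1 ≠ 0 := by positivity
  unfold ga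
  field_simp

lemma ga_2W (m q : ℕ) : ((m : ℝ) + 1) * ga m q * (2 * WW m q) ≤ 1 / 1000 := by
  rw [← ga_W2 m q]
  have h := WW_ge6 m q
  have h1 := ga_pos m q
  apply mul_le_mul_of_nonneg_left _ (by positivity)
  nlinarith

lemma ta_nonneg (m b : ℕ) : 0 ≤ ta m b := by
  have := HH_pos m
  unfold ta; positivity

lemma ta_le {m q b : ℕ} (hb : b < q) : ta m b + 3 * HH m ≤ WW m q := by
  have h := HH_pos m
  have h1 : (b : ℝ) + 1 ≤ (q:ℝ) := by exact_mod_cast hb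
  unfold ta WW
  nlinarith

lemma ta_sep {m b b' : ℕ} (hb : b < b') : ta m b + 3 * HH m ≤ ta m b' := by
  have h := HH_pos m
  have h1 : (b : ℝ) + 1 ≤ (b':ℝ) := by exact_mod_cast hb
  unfold ta
  nlinarith

lemma EP_ge (m ρ : ℕ) : 16 * ((m : ℝ) + 1) * HH m ≤ EP m ρ := by
  have h := HH_pos m
  have hm : (0:ℝ) ≤ m := Nat.cast_nonneg m
  have h2 : 16 * ((m:ℝ) + 1) ≤ (16 * ((m : ℝ) + 1)) ^ (ρ + 1) := by
    calc 16 * ((m:ℝ) + 1) = (16 * ((m:ℝ) + 1)) ^ 1 := by ring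
      _ ≤ (16 * ((m : ℝ) + 1)) ^ (ρ + 1) := pow_le_pow_right₀ (by linarith) (by omega)
  unfold EP
  nlinarith

lemma EP_ge16 (m ρ : ℕ) : 16 * HH m ≤ EP m ρ := by
  have h := HH_pos m
  have h1 := EP_ge m ρ
  have hm : (0:ℝ) ≤ m := Nat.cast_nonneg m
  nlinarith [mul_nonneg hm h.le]

lemma EP_mono (m : ℕ) {ρ ρ' : ℕ} (h : ρ ≤ ρ') : EP m ρ ≤ EP m ρ' := by
  have h0 := HH_pos m
  have hm : (0:ℝ) ≤ m := Nat.cast_nonneg m
  unfold EP
  apply mul_le_mul_of_nonneg_left _ h0.le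
  exact pow_le_pow_right₀ (by linarith) (by omega)

lemma EP_gap (m : ℕ) {ρ ρ' : ℕ} (h : ρ < ρ') : 16 * ((m : ℝ) + 1) * EP m ρ ≤ EP m ρ' := by
  have h0 := HH_pos m
  have hm : (0:ℝ) ≤ m := Nat.cast_nonneg m
  have h2 : (16 * ((m : ℝ) + 1)) ^ (ρ + 2) ≤ (16 * ((m : ℝ) + 1)) ^ (ρ' + 1) :=
    pow_le_pow_right₀ (by linarith) (by omega)
  unfold EP
  calc 16 * ((m : ℝ) + 1) * (HH m * (16 * ((m : ℝ) + 1)) ^ (ρ + 1)) =
        HH m * (16 * ((m : ℝ) + 1)) ^ (ρ + 2) := by ring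
    _ ≤ HH m * (16 * ((m : ℝ) + 1)) ^ (ρ' + 1) := mul_le_mul_of_nonneg_left h2 h0.le

lemma RP_mono (m q : ℕ) {ρ ρ' : ℕ} (h : ρ ≤ ρ') : RP m q ρ ≤ RP m q ρ' := by
  have h1 := EP_mono m h
  have h2 := ga_pos m q
  unfold RP
  have : 2 * (EP m ρ + HH m) / ga m q ≤ 2 * (EP m ρ' + HH m) / ga m q :=
    div_le_div_of_nonneg_right (by linarith) h2.le
  linarith

lemma WW_le_RP (m q ρ : ℕ) : WW m q ≤ RP m q ρ := by
  have h1 := EP_ge16 m ρ
  have h2 := ga_pos m q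
  have h3 := HH_pos m
  unfold RP
  have : 0 ≤ 2 * (EP m ρ + HH m) / ga m q := div_nonneg (by linarith) h2.le
  linarith

/-- on the range of the long plate of rank `ρ` slopes produce at most this height -/
lemma slope_RP (m q ρ : ℕ) {s T τ : ℝ} (hs0 : 0 ≤ s) (hs : s ≤ ((m : ℝ) + 1) * ga m q)
    (hT : |T| ≤ RP m q ρ) (hτ0 : 0 ≤ τ) (hτ : τ ≤ WW m q) :
    |s * (T - τ)| ≤ 1 + 2 * ((m : ℝ) + 1) * (EP m ρ + HH m) := by
  have h1 := EP_ge16 m ρ
  have h2 := ga_pos m q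
  have h3 := HH_pos m
  have h4 : |T - τ| ≤ 2 * WW m q + 2 * (EP m ρ + HH m) / ga m q := by
    have h5 := abs_le.mp hT
    unfold RP at h5
    rw [abs_le]
    constructor <;> linarith [h5.1, h5.2]
  have h6 : 0 ≤ 2 * WW m q + 2 * (EP m ρ + HH m) / ga m q := (abs_nonneg _).trans h4
  rw [abs_mul, abs_of_nonneg hs0]
  calc s * |T - τ| ≤ s * (2 * WW m q + 2 * (EP m ρ + HH m) / ga m q) :=
        mul_le_mul_of_nonneg_left h4 hs0
    _ ≤ (((m : ℝ) + 1) * ga m q) * (2 * WW m q + 2 * (EP m ρ + HH m) / ga m q) :=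
        mul_le_mul_of_nonneg_right hs h6
    _ = ((m : ℝ) + 1) * ga m q * (2 * WW m q) + 2 * ((m : ℝ) + 1) * (EP m ρ + HH m) := by
        field_simp
    _ ≤ 1 + 2 * ((m : ℝ) + 1) * (EP m ρ + HH m) := by
        have := ga_2W m q
        linarith

/-- in the middle region slopes produce almost nothing -/
lemma slope_mid (m q : ℕ) {s T τ : ℝ} (hs0 : 0 ≤ s) (hs : s ≤ ((m : ℝ) + 1) * ga m q)
    (hT : |T| ≤ WW m q) (hτ0 : 0 ≤ τ) (hτ : τ ≤ WW m q) :
    |s * (T - τ)| ≤ 1 / 1000 := by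
  have h4 : |T - τ| ≤ 2 * WW m q := by
    have h5 := abs_le.mp hT
    rw [abs_le]
    constructor <;> linarith [h5.1, h5.2]
  have h6 : 0 ≤ 2 * WW m q := (abs_nonneg _).trans h4
  rw [abs_mul, abs_of_nonneg hs0]
  calc s * |T - τ| ≤ s * (2 * WW m q) := mul_le_mul_of_nonneg_left h4 hs0
    _ ≤ (((m : ℝ) + 1) * ga m q) * (2 * WW m q) := mul_le_mul_of_nonneg_right hs h6
    _ ≤ 1 / 1000 := ga_2W m q

/-- slopes -/
noncomputable def sL (m q l : ℕ) : ℝ := ((l : ℝ) + 1 / 2) * ga m q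

lemma sL_pos (m q l : ℕ) : 0 < sL m q l := by
  have := ga_pos m q
  unfold sL; positivity

lemma sL_le {m q l : ℕ} (hl : l ≤ m) : sL m q l ≤ ((m : ℝ) + 1) * ga m q := by
  have h := ga_pos m q
  unfold sL
  apply mul_le_mul_of_nonneg_right _ h.le
  have : (l : ℝ) ≤ m := by exact_mod_cast hl
  linarith

lemma kslope_le {m q k : ℕ} (hk : k < m) :
    ((k : ℝ) + 1) * ga m q ≤ ((m : ℝ) + 1) * ga m q := by
  have h := ga_pos m q
  apply mul_le_mul_of_nonneg_right _ h.le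
  have : (k : ℝ) + 1 ≤ m := by exact_mod_cast hk
  linarith

lemma sL_H2 {m q l : ℕ} (hl : l ≤ m) : sL m q l * (HH m) ^ 2 ≤ 1 / 1000 := by
  have h1 := sL_le (q := q) hl
  have h2 := ga_W2 m q
  have h3 := WW_ge m q
  have h4 := HH_pos m
  have h5 := sL_pos m q l
  have h6 : (HH m) ^ 2 ≤ (WW m q) ^ 2 := pow_le_pow_left₀ h4.le (by linarith) 2
  calc sL m q l * (HH m) ^ 2 ≤ (((m : ℝ) + 1) * ga m q) * (WW m q) ^ 2 :=
        mul_le_mul h1 h6 (by positivity) (h5.le.trans h1)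
    _ = 1 / 1000 := h2

lemma sL_small {m q l : ℕ} (hl : l ≤ m) : sL m q l ≤ 1 / 4000 := by
  have h1 := sL_H2 (q := q) hl
  have h2 := HH_ge m
  have h3 := sL_pos m q l
  have h4 : (4:ℝ) ≤ (HH m) ^ 2 := by nlinarith
  nlinarith

/-- the difference of two slopes is at least half a step -/
lemma sL_diff (m q l k : ℕ) : ga m q / 2 ≤ |sL m q l - ((k : ℝ) + 1) * ga m q| := by
  have hg := ga_pos m q
  have e1 : sL m q l - ((k : ℝ) + 1) * ga m q =
      ((((l : ℤ) - ((k : ℤ) + 1) : ℤ) : ℝ) + 1 / 2) * ga m q := by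
    unfold sL; push_cast; ring
  rw [e1, abs_mul, abs_of_pos hg]
  have := half_le_abs ((l : ℤ) - ((k : ℤ) + 1))
  nlinarith

/-! ### The inequality for the upper pieces -/

lemma U_ineq {m : ℕ} (hm : 1 ≤ m) {s : ℝ} (hs0 : 0 < s) (hs1 : s ≤ 1 / 4000)
    (hs2 : s * (HH m) ^ 2 ≤ 1 / 1000) {k i : ℕ} (hk : k ≤ m ^ 2) (hi : i < m) {X : ℝ}
    (hX : X = (tc k - (m : ℝ) * (i : ℝ)) / (1 - s)) :
    |X| ≤ HH m ∧ X * (1 - s) = tc k - (m : ℝ) * (i : ℝ) ∧
    ∀ j : ℕ, ((m : ℝ) * (i : ℝ) + 2 * ((j : ℝ) + 1)) * (tc k + s * X) -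
      ((m : ℝ) * (i : ℝ) + ((j : ℝ) + 1)) ^ 2 + 1 / 8 ≤ tc k * X := by
  have hH := HH_ge m
  have hm1 : (1:ℝ) ≤ m := by exact_mod_cast hm
  obtain ⟨c, hc⟩ : ∃ c, c = tc k := ⟨_, rfl⟩
  have hc0 : 1 / 2 ≤ c := by
    rw [hc]; unfold tc
    have : (0:ℝ) ≤ (k:ℝ) := by positivity
    linarith
  have hc1 : c ≤ HH m - 3 / 2 := by
    rw [hc]; unfold tc HH
    have : (k:ℝ) ≤ (m:ℝ) ^ 2 := by exact_mod_cast hk
    linarith
  rw [← hc] at hX ⊢
  obtain ⟨t, ht⟩ : ∃ t, t = (m : ℝ) * (i : ℝ) := ⟨_, rfl⟩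
  rw [← ht] at hX ⊢
  have h1s : 0 < 1 - s := by linarith
  have hX1 : X * (1 - s) = c - t := by rw [hX, div_mul_cancel₀ _ h1s.ne']
  have ht0 : 0 ≤ t := by rw [ht]; positivity
  have ht1 : t ≤ HH m - 2 := by
    rw [ht]; unfold HH
    have : (i : ℝ) + 1 ≤ m := by exact_mod_cast hi
    nlinarith
  have hXabs : |X| ≤ HH m := by
    have h2 : |X| * (1 - s) ≤ HH m - 3 / 2 := by
      rw [← abs_of_pos h1s, ← abs_mul, hX1, abs_le]
      constructor <;> linarith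
    by_contra hcon
    push Not at hcon
    have h6 : s * HH m ≤ 1 / 1000 := by
      have : s * HH m ≤ s * (HH m) ^ 2 := by
        apply mul_le_mul_of_nonneg_left _ hs0.le
        nlinarith
      linarith
    have h7 : HH m * (1 - s) < |X| * (1 - s) := mul_lt_mul_of_pos_right hcon h1s
    nlinarith
  have hXsq : X ^ 2 ≤ (HH m) ^ 2 := by
    rw [← sq_abs X]
    exact pow_le_pow_left₀ (abs_nonneg _) hXabs 2
  have hsX2 : s * X ^ 2 ≤ 1 / 1000 := by
    refine le_trans (mul_le_mul_of_nonneg_left hXsq hs0.le) hs2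
  have hsX : |s * X| ≤ 1 / 1000 := by
    rw [abs_mul, abs_of_pos hs0]
    have : s * |X| ≤ s * (HH m) ^ 2 := by
      apply mul_le_mul_of_nonneg_left _ hs0.le
      nlinarith [abs_nonneg X]
    linarith
  obtain ⟨hsXl, hsXu⟩ := abs_le.mp hsX
  refine ⟨hXabs, hX1, ?_⟩
  intro j
  obtain ⟨w, hw⟩ : ∃ w, w = (j : ℝ) + 1 := ⟨_, rfl⟩
  rw [← hw]
  have hh : c + s * X = X + t := by linarith
  have hcX : c * X = X ^ 2 - s * X ^ 2 + t * X := by
    have : c = X * (1 - s) + t := by linarith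
    rw [this]; ring
  rw [hh, hcX]
  have hhalf : 1 / 2 ≤ |c - t - w| := by
    have e1 : c - t - w = (((k : ℤ) - (m : ℤ) * (i : ℤ) - ((j : ℤ) + 1) : ℤ) : ℝ)
        + 1 / 2 := by
      rw [hc, ht, hw]; unfold tc; push_cast; ring
    rw [e1]
    exact half_le_abs _
  have hXw : 499 / 1000 ≤ |X - w| := by
    have e1 : c - t - w = (X - w) + -(s * X) := by linarith
    rw [e1] at hhalf
    have := abs_add_le (X - w) (-(s * X))
    rw [abs_neg] at this
    linarith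
  have hsq : (499 / 1000 : ℝ) ^ 2 ≤ (X - w) ^ 2 := by
    rw [← sq_abs (X - w)]
    exact pow_le_pow_left₀ (by norm_num) hXw 2
  nlinarith

end Pool.Agent.Y423.GP
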