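import Mathlib
import Pool.Agent.Y423.GP.Base

set_option autoImplicit false

/-!
# Geometric permutations in all dimensions: the family and the lines
-/

namespace Pool.Agent.Y423.GP

open Pool.Agent.Results.MP_25490b_co.CubicPermutations

section fam

variable {d p q : ℕ} (σ : Fin d ≃ Option (Fin p ⊕ Fin q)) (hpq : p ≤ q)

/-- heights allowed on the short pieces -/
def Mid (m : ℕ) (x : E d) : Prop := ∀ b : Fin q, -1 ≤ yC σ b x ∧ yC σ b x ≤ HH m

/-- lower pieces -/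
def PL (m : ℕ) (a : Fin p) (j : Fin m) : Set (E d) :=
  {x | tC σ x = ta m a + (((j : ℕ) : ℝ) + 1) ∧
    xC σ a x ≤ (((j : ℕ) : ℝ) + 1) * yC σ (Fin.castLE hpq a) x ∧ Mid σ m x}

/-- upper pieces -/
def PU (m : ℕ) (a : Fin p) (i : Fin m) : Set (E d) :=
  {x | tC σ x = yC σ (Fin.castLE hpq a) x + (ta m a - (m : ℝ) * ((i : ℕ) : ℝ)) ∧
    (∀ j : Fin m, ((m : ℝ) * ((i : ℕ) : ℝ) + 2 * (((j : ℕ) : ℝ) + 1)) *
      yC σ (Fin.castLE hpq a) x + (1 / 8 -
        ((m : ℝ) * ((i : ℕ) : ℝ) + (((j : ℕ) : ℝ) + 1)) ^ 2) ≤ xC σ a x) ∧ Mid σ m x}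

/-- rank of a long plate -/
def rk (m : ℕ) (b : Fin q) (k : Fin m) : ℕ := (b : ℕ) * m + (k : ℕ)

/-- long plates -/
def PZ (m : ℕ) (b : Fin q) (k : Fin m) : Set (E d) :=
  {x | yC σ b x = ((((k : ℕ) : ℝ) + 1) * ga m q) * tC σ x +
      (-EP m (rk m b k) - ((((k : ℕ) : ℝ) + 1) * ga m q) * ta m b) ∧
    (tC σ x ≤ RP m q (rk m b k) ∧ -RP m q (rk m b k) ≤ tC σ x) ∧
    ∀ b' : Fin q, -QP m (rk m b k) ≤ yC σ b' x}

/-- walls -/
def PW (m w : ℕ) : Set (E d) :=
  {x | tC σ x = RP m q (q * m) + 1 + (w : ℝ)}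

/-- Index type. -/
abbrev Ix (p q m r : ℕ) : Type :=
  (Fin p × Fin m) ⊕ (Fin p × Fin m) ⊕ (Fin q × Fin m) ⊕ Fin r

/-- The family. -/
def GG (m r : ℕ) : Ix p q m r → Set (E d)
  | Sum.inl aj => PL σ hpq m aj.1 aj.2
  | Sum.inr (Sum.inl ai) => PU σ hpq m ai.1 ai.2
  | Sum.inr (Sum.inr (Sum.inl bk)) => PZ σ m bk.1 bk.2
  | Sum.inr (Sum.inr (Sum.inr w)) => PW σ m (w : ℕ)

lemma poly_Mid (m : ℕ) : Poly {x : E d | Mid σ m x} := by
  unfold Mid
  exact Poly.all fun b => Poly.and (Poly.le (Aff.const _) (aff_yC σ b))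
    (Poly.le (aff_yC σ b) (Aff.const _))

lemma poly_PL (m : ℕ) (a : Fin p) (j : Fin m) : Poly (PL σ hpq m a j) := by
  unfold PL
  exact Poly.and (Poly.eq (aff_tC σ) (Aff.const _))
    (Poly.and (Poly.le (aff_xC σ a) (Aff.cmul _ (aff_yC σ _))) (poly_Mid σ m))

lemma poly_PU (m : ℕ) (a : Fin p) (i : Fin m) : Poly (PU σ hpq m a i) := by
  unfold PU
  exact Poly.and (Poly.eq (aff_tC σ) (Aff.add (aff_yC σ _) (Aff.const _)))
    (Poly.and (Poly.all fun j => Poly.le (Aff.add (Aff.cmul _ (aff_yC σ _)) (Aff.const _))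
      (aff_xC σ a)) (poly_Mid σ m))

lemma poly_PZ (m : ℕ) (b : Fin q) (k : Fin m) : Poly (PZ σ m b k) := by
  unfold PZ
  exact Poly.and (Poly.eq (aff_yC σ b) (Aff.add (Aff.cmul _ (aff_tC σ)) (Aff.const _)))
    (Poly.and (Poly.and (Poly.le (aff_tC σ) (Aff.const _)) (Poly.le (Aff.const _) (aff_tC σ)))
      (Poly.all fun b' => Poly.le (Aff.const _) (aff_yC σ b')))

lemma poly_PW (m w : ℕ) : Poly (PW σ m w : Set (E d)) := by
  unfold PW
  exact Poly.eq (aff_tC σ) (Aff.const _)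

lemma poly_GG (m r : ℕ) (e : Ix p q m r) : Poly (GG σ hpq m r e) := by
  rcases e with aj | ai | bk | w
  · exact poly_PL _ _ _ _ _
  · exact poly_PU _ _ _ _ _
  · exact poly_PZ _ _ _ _
  · exact poly_PW _ _ _

/-! ### Disjointness -/

lemma PL_t {m : ℕ} {a : Fin p} {j : Fin m} {x : E d} (h : x ∈ PL σ hpq m a j) :
    |tC σ x - ta m a| ≤ HH m := by
  have h3 : ((j : ℕ) : ℝ) + 1 ≤ m := by exact_mod_cast j.2
  have h4 := m_le_HH m
  have h5 : (0:ℝ) ≤ ((j : ℕ) : ℝ) := by positivity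
  rw [h.1, abs_le]
  constructor <;> linarith

lemma PU_t {m : ℕ} {a : Fin p} {i : Fin m} {x : E d} (h : x ∈ PU σ hpq m a i) :
    |tC σ x - ta m a| ≤ HH m := by
  have h3 : ((i : ℕ) : ℝ) + 1 ≤ m := by exact_mod_cast i.2
  have h5 : (0:ℝ) ≤ ((i : ℕ) : ℝ) := by positivity
  have hm : (0:ℝ) ≤ m := Nat.cast_nonneg m
  have h6 : (m:ℝ) * ((i : ℕ) : ℝ) + 1 ≤ HH m := by
    unfold HH
    nlinarith [sq_nonneg ((m:ℝ) - 1)]
  have h7 : 0 ≤ (m:ℝ) * ((i : ℕ) : ℝ) := by positivity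
  have h8 := h.2.2 (Fin.castLE hpq a)
  rw [h.1, abs_le]
  constructor <;> linarith [h8.1, h8.2]

lemma gad_W {m : ℕ} {a : Fin p} {x : E d} (hpq : p ≤ q) (h : |tC σ x - ta m a| ≤ HH m) :
    |tC σ x| ≤ WW m q := by
  have h1 := ta_le (m := m) (q := q) (b := a) (lt_of_lt_of_le a.2 hpq)
  have h2 := ta_nonneg m a
  have h3 := HH_pos m
  have h4 := abs_le.mp h
  have h5 := WW_ge m q
  rw [abs_le]
  constructor <;> linarith [h4.1, h4.2]

lemma gad_ne {m : ℕ} {a a' : Fin p} {x : E d} (h : |tC σ x - ta m a| ≤ HH m)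
    (h' : |tC σ x - ta m a'| ≤ HH m) : a = a' := by
  have h3 := HH_pos m
  have h4 := abs_le.mp h
  have h5 := abs_le.mp h'
  rcases lt_trichotomy (a : ℕ) a' with hlt | heq | hlt
  · have := ta_sep (m := m) hlt
    linarith [h4.1, h4.2, h5.1, h5.2]
  · exact Fin.ext heq
  · have := ta_sep (m := m) hlt
    linarith [h4.1, h4.2, h5.1, h5.2]

/-- in the middle region the long plates are low -/
lemma PZ_low {m : ℕ} {b : Fin q} {k : Fin m} {x : E d} (h : x ∈ PZ σ m b k)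
    (hT : |tC σ x| ≤ WW m q) : yC σ b x < -1 := by
  have h0 := h.1
  have h1 := ga_pos m q
  have h2 := slope_mid m q (s := (((k : ℕ) : ℝ) + 1) * ga m q) (by positivity)
    (kslope_le k.2) hT (ta_nonneg m b)
    (by have := ta_le (m := m) (q := q) b.2; have := HH_pos m; linarith)
  have h3 := abs_le.mp h2
  have h4 := EP_ge16 m (rk m b k)
  have h5 := HH_ge m
  have h6 : yC σ b x = -EP m (rk m b k) +
      (((k : ℕ) : ℝ) + 1) * ga m q * (tC σ x - ta m b) := by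
    rw [h0]; ring
  linarith [h3.2]

lemma PZ_PZ {m : ℕ} {b b' : Fin q} {k k' : Fin m} (hr : rk m b k < rk m b' k') {x : E d}
    (h : x ∈ PZ σ m b k) (h' : x ∈ PZ σ m b' k') : False := by
  have h1 := ga_pos m q
  have hT : |tC σ x| ≤ RP m q (rk m b k) := abs_le.mpr ⟨h.2.1.2, h.2.1.1⟩
  have h2 := slope_RP m q (rk m b k) (s := (((k' : ℕ) : ℝ) + 1) * ga m q) (by positivity)
    (kslope_le k'.2) hT (ta_nonneg m b')
    (by have := ta_le (m := m) (q := q) b'.2; have := HH_pos m; linarith)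
  have h3 := (abs_le.mp h2).2
  have h6 : yC σ b' x = -EP m (rk m b' k') +
      (((k' : ℕ) : ℝ) + 1) * ga m q * (tC σ x - ta m b') := by
    rw [h'.1]; ring
  have h7 := h.2.2 b'
  have h8 := EP_gap m hr
  have h9 := EP_ge16 m (rk m b k)
  have h10 := HH_ge m
  have hm : (0:ℝ) ≤ m := Nat.cast_nonneg m
  unfold QP at h7
  obtain ⟨A, hA⟩ : ∃ A, A = EP m (rk m b k) := ⟨_, rfl⟩
  obtain ⟨B, hB⟩ : ∃ B, B = EP m (rk m b' k') := ⟨_, rfl⟩
  obtain ⟨S, hS⟩ : ∃ S, S = (((k' : ℕ) : ℝ) + 1) * ga m q * (tC σ x - ta m b') := ⟨_, rfl⟩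
  rw [← hA] at h3 h7 h8 h9
  rw [← hB] at h6 h8
  rw [← hS] at h3 h6
  have h11 : ((m:ℝ) + 1) * (A + HH m) ≤ ((m:ℝ) + 1) * (17 / 16 * A) :=
    mul_le_mul_of_nonneg_left (by linarith) (by linarith)
  have h12 : 32 ≤ ((m:ℝ) + 1) * A := by nlinarith
  nlinarith

lemma rk_inj {m : ℕ} {b b' : Fin q} {k k' : Fin m} (h : rk m b k = rk m b' k') :
    b = b' ∧ k = k' := by
  unfold rk at h
  have hm : 0 < m := lt_of_le_of_lt (Nat.zero_le _) k.2
  have h1 : (b : ℕ) = b' := by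
    have e1 : ((b : ℕ) * m + k) / m = b := by
      rw [mul_comm, Nat.mul_add_div hm, Nat.div_eq_of_lt k.2, add_zero]
    have e2 : ((b' : ℕ) * m + k') / m = b' := by
      rw [mul_comm, Nat.mul_add_div hm, Nat.div_eq_of_lt k'.2, add_zero]
    rw [← e1, ← e2, h]
  refine ⟨Fin.ext h1, Fin.ext ?_⟩
  rw [h1] at h
  omega

lemma rk_le {m : ℕ} (b : Fin q) (k : Fin m) : rk m b k ≤ q * m := by
  unfold rk
  have h1 := b.2
  have h2 := k.2
  have : ((b : ℕ) + 1) * m ≤ q * m := Nat.mul_le_mul_right m h1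
  nlinarith

lemma PL_PU {m : ℕ} {a : Fin p} {j i : Fin m} {x : E d} (h1 : x ∈ PL σ hpq m a j)
    (h2 : x ∈ PU σ hpq m a i) : False := by
  have h3 := h2.2.1 j
  have h4 := h1.2.1
  have h5 : yC σ (Fin.castLE hpq a) x = ((j : ℕ) : ℝ) + 1 + (m : ℝ) * ((i : ℕ) : ℝ) := by
    linarith [h1.1, h2.1]
  rw [h5] at h3 h4
  nlinarith

lemma disjoint_GG {m r : ℕ} (hm : 1 ≤ m) (e f : Ix p q m r) (hne : e ≠ f) :
    Disjoint (GG σ hpq m r e) (GG σ hpq m r f) := by
  have GadZ : ∀ (x : E d) (b : Fin q) (k : Fin m), |tC σ x| ≤ WW m q → Mid σ m x →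
      x ∈ PZ σ m b k → False := by
    intro x b k hT hM hz
    have h1 := PZ_low σ hz hT
    have h2 := (hM b).1
    linarith
  have GadW : ∀ (x : E d) (w : ℕ), |tC σ x| ≤ WW m q → x ∈ (PW σ m w : Set (E d)) → False := by
    intro x w hT hw
    have h1 : tC σ x = RP m q (q * m) + 1 + (w : ℝ) := hw
    have h2 := WW_le_RP m q (q * m)
    have h3 : (0:ℝ) ≤ w := Nat.cast_nonneg w
    linarith [(abs_le.mp hT).2]
  have ZW : ∀ (x : E d) (b : Fin q) (k : Fin m) (w : ℕ), x ∈ PZ σ m b k →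
      x ∈ (PW σ m w : Set (E d)) → False := by
    intro x b k w hz hw
    have h1 : tC σ x = RP m q (q * m) + 1 + (w : ℝ) := hw
    have h2 := RP_mono m q (rk_le (q := q) b k)
    have h3 : (0:ℝ) ≤ w := Nat.cast_nonneg w
    linarith [hz.2.1.1]
  rw [Set.disjoint_left]
  intro x hx hy
  rcases e with ⟨a, j⟩ | ⟨a, i⟩ | ⟨b, k⟩ | w <;>
    rcases f with ⟨a', j'⟩ | ⟨a', i'⟩ | ⟨b', k'⟩ | w'
  · have ha := gad_ne σ (PL_t σ hpq hx) (PL_t σ hpq hy)
    subst ha
    have h1 : ((j : ℕ) : ℝ) = ((j' : ℕ) : ℝ) := by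
      have e1 := hx.1
      have e2 := hy.1
      linarith
    have h2 : (j : ℕ) = j' := by exact_mod_cast h1
    exact hne (by rw [Fin.ext h2])
  · have ha := gad_ne σ (PL_t σ hpq hx) (PU_t σ hpq hy)
    subst ha
    exact PL_PU σ hpq hx hy
  · exact GadZ x b' k' (gad_W σ hpq (PL_t σ hpq hx)) hx.2.2 hy
  · exact GadW x w' (gad_W σ hpq (PL_t σ hpq hx)) hy
  · have ha := gad_ne σ (PL_t σ hpq hy) (PU_t σ hpq hx)
    subst ha
    exact PL_PU σ hpq hy hx
  · have ha := gad_ne σ (PU_t σ hpq hx) (PU_t σ hpq hy)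
    subst ha
    have hm0 : (m : ℝ) ≠ 0 := by
      have : (1:ℝ) ≤ m := by exact_mod_cast hm
      linarith
    have h1 : (m:ℝ) * ((i : ℕ) : ℝ) = (m:ℝ) * ((i' : ℕ) : ℝ) := by
      have e1 := hx.1
      have e2 := hy.1
      linarith
    have h2 : ((i : ℕ) : ℝ) = ((i' : ℕ) : ℝ) := mul_left_cancel₀ hm0 h1
    have h3 : (i : ℕ) = i' := by exact_mod_cast h2
    exact hne (by rw [Fin.ext h3])
  · exact GadZ x b' k' (gad_W σ hpq (PU_t σ hpq hx)) hx.2.2 hy
  · exact GadW x w' (gad_W σ hpq (PU_t σ hpq hx)) hy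
  · exact GadZ x b k (gad_W σ hpq (PL_t σ hpq hy)) hy.2.2 hx
  · exact GadZ x b k (gad_W σ hpq (PU_t σ hpq hy)) hy.2.2 hx
  · rcases lt_trichotomy (rk m b k) (rk m b' k') with h | h | h
    · exact PZ_PZ σ h hx hy
    · obtain ⟨h1, h2⟩ := rk_inj h
      exact hne (by rw [h1, h2])
    · exact PZ_PZ σ h hy hx
  · exact ZW x b k w' hx hy
  · exact GadW x w (gad_W σ hpq (PL_t σ hpq hy)) hx
  · exact GadW x w (gad_W σ hpq (PU_t σ hpq hy)) hx
  · exact ZW x b' k' w hy hx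
  · have e1 : tC σ x = RP m q (q * m) + 1 + ((w : ℕ) : ℝ) := hx
    have e2 : tC σ x = RP m q (q * m) + 1 + ((w' : ℕ) : ℝ) := hy
    have h1 : ((w : ℕ) : ℝ) = ((w' : ℕ) : ℝ) := by linarith
    have h2 : (w : ℕ) = w' := by exact_mod_cast h1
    exact hne (by rw [Fin.ext h2])

/-! ### The lines -/

/-- base point of the line with times `c` and slopes `s` -/
noncomputable def bl (m : ℕ) (c s : ℕ → ℝ) : E d :=
  pt σ 0 (fun a => -(c a * ta m a)) (fun b => c b - s b * ta m b)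

/-- direction of the line with times `c` and slopes `s` -/
noncomputable def dl (c s : ℕ → ℝ) : E d :=
  pt σ 1 (fun a => c a) (fun b => s b)

lemma dl_ne (c s : ℕ → ℝ) : dl σ c s ≠ 0 := by
  intro h
  have h1 : tC σ (dl σ c s) = 1 := tC_pt _ _ _ _
  rw [h] at h1
  simp [tC] at h1

lemma ln_t (m : ℕ) (c s : ℕ → ℝ) (u : ℝ) : tC σ (bl σ m c s + u • dl σ c s) = u := by
  rw [tC_line, bl, dl, tC_pt, tC_pt]; ring

lemma ln_x (m : ℕ) (c s : ℕ → ℝ) (u : ℝ) (a : Fin p) :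
    xC σ a (bl σ m c s + u • dl σ c s) = c a * (u - ta m a) := by
  rw [xC_line, bl, dl, xC_pt, xC_pt]; ring

lemma ln_y (m : ℕ) (c s : ℕ → ℝ) (u : ℝ) (b : Fin q) :
    yC σ b (bl σ m c s + u • dl σ c s) = c b + s b * (u - ta m b) := by
  rw [yC_line, bl, dl, yC_pt, yC_pt]; ring

/-- parameter at which the line meets the given piece -/
noncomputable def am (m r : ℕ) (c s : ℕ → ℝ) : Ix p q m r → ℝ
  | Sum.inl aj => ta m aj.1 + (((aj.2 : ℕ) : ℝ) + 1)
  | Sum.inr (Sum.inl ai) =>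
      ta m ai.1 + (c ai.1 - (m : ℝ) * ((ai.2 : ℕ) : ℝ)) / (1 - s ai.1)
  | Sum.inr (Sum.inr (Sum.inl bk)) => ta m bk.1 +
      -(EP m (rk m bk.1 bk.2) + c bk.1) / (s bk.1 - (((bk.2 : ℕ) : ℝ) + 1) * ga m q)
  | Sum.inr (Sum.inr (Sum.inr w)) => RP m q (q * m) + 1 + ((w : ℕ) : ℝ)

lemma tc_bounds {m k : ℕ} (hk : k ≤ m ^ 2) : 1 / 2 ≤ tc k ∧ tc k ≤ HH m - 3 / 2 := by
  unfold tc HH
  have h1 : (k:ℝ) ≤ (m:ℝ) ^ 2 := by exact_mod_cast hk
  have h2 : (0:ℝ) ≤ (k:ℝ) := by positivity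
  constructor <;> linarith

/-- in the middle region the line satisfies the height conditions -/
lemma ln_mid {m : ℕ} {k l : ℕ → ℕ} (hk : ∀ b, k b ≤ m ^ 2) (hl : ∀ b, l b ≤ m) {u : ℝ}
    (hu : |u| ≤ WW m q) : Mid σ m (bl σ m (fun b => tc (k b)) (fun b => sL m q (l b)) +
      u • dl σ (fun b => tc (k b)) (fun b => sL m q (l b))) := by
  intro b
  rw [ln_y]
  obtain ⟨h1, h2⟩ := tc_bounds (hk b)
  have h3 := slope_mid m q (sL_pos m q (l b)).le (sL_le (hl b)) hu (ta_nonneg m b)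
    (by have := ta_le (m := m) (q := q) b.2; have := HH_pos m; linarith)
  have h4 := abs_le.mp h3
  constructor <;> linarith [h4.1, h4.2]

/-- the line meets every piece -/
lemma hitsG {m r : ℕ} (hm : 1 ≤ m) {k l : ℕ → ℕ} (hk : ∀ b, k b ≤ m ^ 2) (hl : ∀ b, l b ≤ m)
    (e : Ix p q m r) :
    bl σ m (fun b => tc (k b)) (fun b => sL m q (l b)) +
      am m r (fun b => tc (k b)) (fun b => sL m q (l b)) e •
        dl σ (fun b => tc (k b)) (fun b => sL m q (l b)) ∈ GG σ hpq m r e := by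
  have hH := HH_ge m
  rcases e with ⟨a, j⟩ | ⟨a, i⟩ | ⟨b, n⟩ | w
  · have hj : ((j : ℕ) : ℝ) + 1 ≤ m := by exact_mod_cast j.2
    have hj0 : (0:ℝ) < ((j : ℕ) : ℝ) + 1 := by positivity
    have h4 := m_le_HH m
    have hW : |ta m a + (((j : ℕ) : ℝ) + 1)| ≤ WW m q := by
      have h1 := ta_le (m := m) (q := q) (b := a) (lt_of_lt_of_le a.2 hpq)
      have h2 := ta_nonneg m a
      rw [abs_le]
      constructor <;> linarith
    refine ⟨?_, ?_, ln_mid σ hk hl hW⟩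
    · rw [ln_t]; rfl
    · rw [ln_x, ln_y]
      simp only [am, Fin.val_castLE]
      have h5 := sL_pos m q (l a)
      have h6 := tc_bounds (hk a)
      have h7 : 0 < sL m q (l a) * (((j : ℕ) : ℝ) + 1) := by positivity
      have e1 : ta m a + (((j : ℕ) : ℝ) + 1) - ta m a = ((j : ℕ) : ℝ) + 1 := by ring
      rw [e1]
      nlinarith
  · obtain ⟨X, hX⟩ : ∃ X, X = (tc (k a) - (m : ℝ) * ((i : ℕ) : ℝ)) / (1 - sL m q (l a)) :=
      ⟨_, rfl⟩
    obtain ⟨h1, h2, h3⟩ := U_ineq hm (sL_pos m q (l a)) (sL_small (hl a)) (sL_H2 (hl a))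
      (hk a) i.2 hX
    have hW : |ta m a + X| ≤ WW m q := by
      have h4 := ta_le (m := m) (q := q) (b := a) (lt_of_lt_of_le a.2 hpq)
      have h5 := ta_nonneg m a
      have h6 := abs_le.mp h1
      have h7 := WW_ge m q
      rw [abs_le]
      constructor <;> linarith [h6.1, h6.2]
    have ham : am m r (fun b => tc (k b)) (fun b => sL m q (l b))
        (Sum.inr (Sum.inl (a, i)) : Ix p q m r) = ta m a + X := by
      rw [hX]; rfl
    rw [ham]
    have e1 : ta m a + X - ta m a = X := by ring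
    refine ⟨?_, ?_, ln_mid σ hk hl hW⟩
    · rw [ln_t, ln_y]
      simp only [Fin.val_castLE]
      rw [e1]
      linarith
    · intro j
      rw [ln_x, ln_y]
      simp only [Fin.val_castLE]
      rw [e1]
      have := h3 j
      linarith
  · have hg := ga_pos m q
    have hE := EP_ge16 m (rk m b n)
    have hc := tc_bounds (hk b)
    obtain ⟨D, hD⟩ : ∃ D, D = sL m q (l b) - (((n : ℕ) : ℝ) + 1) * ga m q := ⟨_, rfl⟩
    have hDabs : ga m q / 2 ≤ |D| := hD ▸ sL_diff m q (l b) n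
    have hDne : D ≠ 0 := by
      intro h
      rw [h, abs_zero] at hDabs
      linarith
    obtain ⟨u, hu⟩ : ∃ u, u = -(EP m (rk m b n) + tc (k b)) / D := ⟨_, rfl⟩
    have huD : u * D = -(EP m (rk m b n) + tc (k b)) := by rw [hu, div_mul_cancel₀ _ hDne]
    have ham : am m r (fun b => tc (k b)) (fun b => sL m q (l b))
        (Sum.inr (Sum.inr (Sum.inl (b, n))) : Ix p q m r) = ta m b + u := by
      rw [hu, hD]; rfl
    have huabs : |u| ≤ 2 * (EP m (rk m b n) + HH m) / ga m q := by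
      rw [hu, abs_div, abs_neg, abs_of_pos (by linarith : 0 < EP m (rk m b n) + tc (k b))]
      rw [div_le_div_iff₀ (abs_pos.mpr hDne) hg]
      have h6 : EP m (rk m b n) + tc (k b) ≤ EP m (rk m b n) + HH m := by linarith
      have h7 : 0 < EP m (rk m b n) + tc (k b) := by linarith
      nlinarith [mul_le_mul h6 hDabs (by positivity) (by linarith)]
    have hR : |ta m b + u| ≤ RP m q (rk m b n) := by
      have h1 := ta_le (m := m) (q := q) b.2
      have h2 := ta_nonneg m b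
      have h3 := abs_le.mp huabs
      unfold RP
      rw [abs_le]
      constructor <;> linarith [h3.1, h3.2]
    rw [ham]
    refine ⟨?_, ?_, ?_⟩
    · rw [ln_t, ln_y]
      have e1 : ta m b + u - ta m b = u := by ring
      rw [e1]
      have e2 : sL m q (l b) = D + (((n : ℕ) : ℝ) + 1) * ga m q := by rw [hD]; ring
      rw [e2]
      linear_combination huD
    · rw [ln_t]
      exact ⟨(abs_le.mp hR).2, (abs_le.mp hR).1⟩
    · intro b'
      rw [ln_y]
      have h3 := slope_RP m q (rk m b n) (sL_pos m q (l b')).le (sL_le (hl b')) hR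
        (ta_nonneg m b')
        (by have := ta_le (m := m) (q := q) b'.2; have := HH_pos m; linarith)
      have h4 := (abs_le.mp h3).1
      have h5 := tc_bounds (hk b')
      have hm0 : (0:ℝ) ≤ m := Nat.cast_nonneg m
      unfold QP
      have h8 : 0 ≤ (m:ℝ) * (EP m (rk m b n) + HH m) := by
        apply mul_nonneg hm0; linarith
      nlinarith
  · change tC σ _ = _
    rw [ln_t]; rfl

/-- the meeting parameter is unique -/
lemma hitsG_unique {m r : ℕ} {k l : ℕ → ℕ} (hl : ∀ b, l b ≤ m) (e : Ix p q m r) {u : ℝ}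
    (hu : bl σ m (fun b => tc (k b)) (fun b => sL m q (l b)) +
      u • dl σ (fun b => tc (k b)) (fun b => sL m q (l b)) ∈ GG σ hpq m r e) :
    u = am m r (fun b => tc (k b)) (fun b => sL m q (l b)) e := by
  rcases e with ⟨a, j⟩ | ⟨a, i⟩ | ⟨b, n⟩ | w
  · have h1 := hu.1
    rw [ln_t] at h1
    exact h1
  · have h1 := hu.1
    rw [ln_t, ln_y] at h1
    simp only [Fin.val_castLE] at h1
    simp only [am]
    have hs := sL_small (q := q) (hl a)
    have h2 : (1 - sL m q (l a)) ≠ 0 := by linarith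
    rw [← sub_eq_iff_eq_add', eq_div_iff h2]
    linarith
  · have h1 := hu.1
    rw [ln_t, ln_y] at h1
    simp only [am]
    have hg := ga_pos m q
    have hDabs := sL_diff m q (l b) n
    have hne : sL m q (l b) - (((n : ℕ) : ℝ) + 1) * ga m q ≠ 0 := by
      intro h
      rw [h, abs_zero] at hDabs
      linarith
    rw [← sub_eq_iff_eq_add', eq_div_iff hne]
    linear_combination h1
  · have h1 : tC σ _ = _ := hu
    rw [ln_t] at h1
    exact h1

end fam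

end Pool.Agent.Y423.GP
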