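import Mathlib
import Pool.Agent.Y423.GP.Plates

set_option autoImplicit false

/-!
# Geometric permutations in all dimensions: counting
-/

namespace Pool.Agent.Y423.GP

open Pool.Agent.Results.MP_25490b_co.CubicPermutations

lemma card_Ix (p q m r : ℕ) : Fintype.card (Ix p q m r) = (2 * p + q) * m + r := by
  simp [Ix]; ring

/-- extension by zero -/
def ext0 {p N : ℕ} (f : Fin p → Fin N) : ℕ → ℕ := fun b => if h : b < p then (f ⟨b, h⟩ : ℕ) else 0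

lemma ext0_le {p N : ℕ} (f : Fin p → Fin (N + 1)) (b : ℕ) : ext0 f b ≤ N := by
  unfold ext0
  split_ifs with h
  · exact Nat.lt_succ_iff.mp (f ⟨b, h⟩).2
  · exact Nat.zero_le _

lemma ext0_fin {p N : ℕ} (f : Fin p → Fin N) (b : Fin p) : ext0 f b = f b := by
  unfold ext0
  rw [dif_pos b.2]

theorem main_countG {d p q m r n : ℕ} (hd : d = p + q + 1) (hp : 1 ≤ p) (hpq : p ≤ q)
    (hm : 2 ≤ m) (hn : n = (2 * p + q) * m + r) :
    (m ^ 2 + 1) ^ p * (m + 1) ^ q ≤ g d n := by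
  classical
  have hm1 : 1 ≤ m := by omega
  obtain ⟨σ⟩ : Nonempty (Fin d ≃ Option (Fin p ⊕ Fin q)) := by
    refine ⟨Fintype.equivOfCardEq ?_⟩
    simp [hd]
  have hcard : Fintype.card (Fin n) = Fintype.card (Ix p q m r) := by
    rw [card_Ix, Fintype.card_fin, hn]
  obtain ⟨eqv⟩ : Nonempty (Fin n ≃ Ix p q m r) := ⟨Fintype.equivOfCardEq hcard⟩
  -- parameters
  obtain ⟨B, hB⟩ : ∃ B : (Fin p → Fin (m ^ 2 + 1)) × (Fin q → Fin (m + 1)) → E d,
      ∀ z, B z = bl σ m (fun b => tc (ext0 z.1 b)) (fun b => sL m q (ext0 z.2 b)) :=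
    ⟨_, fun _ => rfl⟩
  obtain ⟨V, hV⟩ : ∃ V : (Fin p → Fin (m ^ 2 + 1)) × (Fin q → Fin (m + 1)) → E d,
      ∀ z, V z = dl σ (fun b => tc (ext0 z.1 b)) (fun b => sL m q (ext0 z.2 b)) :=
    ⟨_, fun _ => rfl⟩
  obtain ⟨A, hA⟩ : ∃ A : (Fin p → Fin (m ^ 2 + 1)) × (Fin q → Fin (m + 1)) → Ix p q m r → ℝ,
      ∀ z e, A z e = am m r (fun b => tc (ext0 z.1 b)) (fun b => sL m q (ext0 z.2 b)) e :=
    ⟨_, fun _ _ => rfl⟩
  have hhit : ∀ z e, B z + A z e • V z ∈ GG σ hpq m r e := by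
    intro z e
    rw [hB, hV, hA]
    exact hitsG σ hpq hm1 (fun b => ext0_le z.1 b) (fun b => ext0_le z.2 b) e
  have huniq : ∀ z e u, B z + u • V z ∈ GG σ hpq m r e → u = A z e := by
    intro z e u hu
    rw [hB, hV] at hu
    rw [hA]
    exact hitsG_unique σ hpq (fun b => ext0_le z.2 b) e hu
  -- a common box
  obtain ⟨M, hM⟩ := (Set.finite_range
    (fun z : ((Fin p → Fin (m ^ 2 + 1)) × (Fin q → Fin (m + 1))) × Ix p q m r × Fin d =>
      |(B z.1 + A z.1 z.2.1 • V z.1) z.2.2|)).bddAbove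
  have hbox : ∀ z e, B z + A z e • V z ∈ BoxD d M := by
    intro z e i
    exact hM ⟨(z, e, i), rfl⟩
  -- the family
  obtain ⟨F, hFdef⟩ : ∃ F : Fin n → Set (E d), ∀ i, F i = GG σ hpq m r (eqv i) ∩ BoxD d M :=
    ⟨_, fun _ => rfl⟩
  have hF : ∀ i, IsCompact (F i) ∧ Convex ℝ (F i) := by
    intro i
    rw [hFdef]
    exact ⟨(isCompact_BoxD d M).inter_left (poly_GG σ hpq m r _).1,
      (poly_GG σ hpq m r _).2.inter (convex_BoxD d M)⟩
  have hdis : ∀ i j, i ≠ j → Disjoint (F i) (F j) := by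
    intro i j hij
    rw [hFdef, hFdef]
    exact (disjoint_GG σ hpq hm1 _ _ (fun h => hij (eqv.injective h))).mono
      Set.inter_subset_left Set.inter_subset_left
  have hmem : ∀ z, ∀ i : Fin n, B z + A z (eqv i) • V z ∈ F i := by
    intro z i
    rw [hFdef]
    exact ⟨hhit z _, hbox z _⟩
  have hord : ∀ z, ∀ i j : Fin n,
      (ord F (B z) (V z) i j ↔ i ≠ j ∧ A z (eqv i) < A z (eqv j)) := by
    intro z i j
    constructor
    · rintro ⟨hij, a, b, hab, ha, hb⟩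
      rw [hFdef] at ha hb
      rw [← huniq z _ _ ha.1, ← huniq z _ _ hb.1]
      exact ⟨hij, hab⟩
    · rintro ⟨hij, h⟩
      exact ⟨hij, _, _, h, hmem z i, hmem z j⟩
  have hm2 : (2:ℝ) ≤ m := by exact_mod_cast hm
  have hH := HH_ge m
  have hg := ga_pos m q
  -- small slopes
  have hsmall : ∀ l : ℕ, l ≤ m → sL m q l * m ≤ 1 / 1000 := by
    intro l hl
    have h1 := sL_H2 (q := q) hl
    have h2 := sL_pos m q l
    have h3 : (m:ℝ) ≤ (HH m) ^ 2 := by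
      have := m_le_HH m
      nlinarith
    have := mul_le_mul_of_nonneg_left h3 h2.le
    linarith
  have key1 : ∀ z z', ∀ a : Fin p, (z.1 a : ℕ) < z'.1 a →
      ord F (B z) (V z) = ord F (B z') (V z') → False := by
    intro z z' a hkk heq
    obtain ⟨k, hk⟩ : ∃ k : ℕ, k = (z.1 a : ℕ) := ⟨_, rfl⟩
    obtain ⟨k', hk'⟩ : ∃ k' : ℕ, k' = (z'.1 a : ℕ) := ⟨_, rfl⟩
    obtain ⟨l, hl⟩ : ∃ l : ℕ, l = ext0 z.2 a := ⟨_, rfl⟩
    obtain ⟨l', hl'⟩ : ∃ l' : ℕ, l' = ext0 z'.2 a := ⟨_, rfl⟩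
    have hlm : l ≤ m := hl ▸ ext0_le z.2 a
    have hlm' : l' ≤ m := hl' ▸ ext0_le z'.2 a
    have hk'm : k' ≤ m ^ 2 := hk' ▸ Nat.lt_succ_iff.mp (z'.1 a).2
    rw [← hk, ← hk'] at hkk
    have hkm : k < m * m := by nlinarith
    have hi : k / m < m := Nat.div_lt_of_lt_mul hkm
    have hj : k % m < m := Nat.mod_lt _ (by omega)
    have hdiv : m * (k / m) + k % m = k := Nat.div_add_mod k m
    have hdivR : (m:ℝ) * ((k / m : ℕ) : ℝ) + ((k % m : ℕ) : ℝ) = k := by exact_mod_cast hdiv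
    obtain ⟨U, hU⟩ : ∃ U : Fin n, eqv U = Sum.inr (Sum.inl (a, ⟨k / m, hi⟩)) :=
      ⟨eqv.symm _, eqv.apply_symm_apply _⟩
    obtain ⟨L, hL⟩ : ∃ L : Fin n, eqv L = Sum.inl (a, ⟨k % m, hj⟩) :=
      ⟨eqv.symm _, eqv.apply_symm_apply _⟩
    have hUL : U ≠ L := by
      intro h
      rw [h, hL] at hU
      exact absurd hU (by simp)
    have h1 : ord F (B z) (V z) U L := by
      rw [hord z, hU, hL, hA, hA]
      refine ⟨hUL, ?_⟩
      simp only [am]
      rw [ext0_fin, ← hk, ← hl]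
      have hs := sL_small (q := q) hlm
      have hs0 := sL_pos m q l
      have h0 : (tc k - (m:ℝ) * ((k / m : ℕ) : ℝ)) / (1 - sL m q l) <
          ((k % m : ℕ) : ℝ) + 1 := by
        rw [div_lt_iff₀ (by linarith)]
        have h2 := hsmall l hlm
        have h3 : ((k % m : ℕ) : ℝ) + 1 ≤ m := by exact_mod_cast hj
        have h4 : sL m q l * (((k % m : ℕ) : ℝ) + 1) ≤ sL m q l * m :=
          mul_le_mul_of_nonneg_left h3 hs0.le
        unfold tc
        nlinarith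
      linarith
    rw [heq, hord z', hU, hL, hA, hA] at h1
    obtain ⟨-, h1⟩ := h1
    simp only [am] at h1
    rw [ext0_fin, ← hk', ← hl'] at h1
    have hs := sL_small (q := q) hlm'
    have hs0 := sL_pos m q l'
    have h1' : (tc k' - (m:ℝ) * ((k / m : ℕ) : ℝ)) / (1 - sL m q l') <
          ((k % m : ℕ) : ℝ) + 1 := by linarith
    rw [div_lt_iff₀ (by linarith)] at h1'
    have h5 : (k:ℝ) + 1 ≤ k' := by exact_mod_cast hkk
    have h6 : (0:ℝ) ≤ ((k % m : ℕ) : ℝ) := by positivity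
    unfold tc at h1'
    nlinarith
  have hp0 : 0 < p := hp
  have hq0 : 0 < q := lt_of_lt_of_le hp0 hpq
  have key2 : ∀ z z', ∀ b : Fin q, (z.2 b : ℕ) < z'.2 b →
      ord F (B z) (V z) = ord F (B z') (V z') → False := by
    intro z z' b hll heq
    obtain ⟨l, hl⟩ : ∃ l : ℕ, l = (z.2 b : ℕ) := ⟨_, rfl⟩
    obtain ⟨l', hl'⟩ : ∃ l' : ℕ, l' = (z'.2 b : ℕ) := ⟨_, rfl⟩
    obtain ⟨k, hk⟩ : ∃ k : ℕ, k = ext0 z.1 b := ⟨_, rfl⟩
    obtain ⟨k', hk'⟩ : ∃ k' : ℕ, k' = ext0 z'.1 b := ⟨_, rfl⟩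
    have hkm : k ≤ m ^ 2 := hk ▸ ext0_le z.1 b
    have hkm' : k' ≤ m ^ 2 := hk' ▸ ext0_le z'.1 b
    have hlm' : l' ≤ m := hl' ▸ Nat.lt_succ_iff.mp (z'.2 b).2
    rw [← hl, ← hl'] at hll
    have hlm : l < m := by omega
    obtain ⟨Z, hZ⟩ : ∃ Z : Fin n, eqv Z = Sum.inr (Sum.inr (Sum.inl (b, ⟨l, hlm⟩))) :=
      ⟨eqv.symm _, eqv.apply_symm_apply _⟩
    obtain ⟨L, hL⟩ : ∃ L : Fin n, eqv L = Sum.inl (⟨0, hp0⟩, ⟨0, by omega⟩) :=
      ⟨eqv.symm _, eqv.apply_symm_apply _⟩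
    have hLZ : L ≠ Z := by
      intro h
      rw [← h, hL] at hZ
      exact absurd hZ (by simp)
    obtain ⟨Q, hQ⟩ : ∃ Q, Q = EP m (rk m b ⟨l, hlm⟩) := ⟨_, rfl⟩
    have hE : 16 * HH m ≤ Q := hQ ▸ EP_ge16 m _
    have hc := tc_bounds hkm
    have hc' := tc_bounds hkm'
    have hta : ta m b + 3 * HH m ≤ WW m q := ta_le b.2
    have hta0 := ta_nonneg m b
    have h2W := ga_2W m q
    have hW6 := WW_ge6 m q
    have e2 : ga m q ≤ 1 := by
      have h0 : 1 * ga m q * 1 ≤ ((m : ℝ) + 1) * ga m q * (2 * WW m q) := by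
        apply mul_le_mul _ (by linarith) (by norm_num) (by positivity)
        exact mul_le_mul_of_nonneg_right (by linarith) hg.le
      linarith
    have h1 : ord F (B z) (V z) L Z := by
      rw [hord z, hL, hZ, hA, hA]
      refine ⟨hLZ, ?_⟩
      simp only [am]
      rw [ext0_fin, ← hk, ← hl, ← hQ]
      have e1 : sL m q l - ((l : ℝ) + 1) * ga m q = -(ga m q / 2) := by unfold sL; ring
      have e0 : ta m 0 = 0 := by unfold ta; simp
      rw [e1, neg_div_neg_eq]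
      change ta m 0 + (((0 : ℕ) : ℝ) + 1) < _
      rw [e0]
      have h3 : 1 < (Q + tc k) / (ga m q / 2) := by
        rw [lt_div_iff₀ (by linarith)]
        linarith
      push_cast
      linarith
    rw [heq, hord z', hL, hZ, hA, hA] at h1
    obtain ⟨-, h1⟩ := h1
    simp only [am] at h1
    rw [ext0_fin, ← hk', ← hl', ← hQ] at h1
    have e3 : (l:ℝ) + 1 ≤ l' := by exact_mod_cast hll
    have e4 : 0 < sL m q l' - ((l : ℝ) + 1) * ga m q := by
      have : sL m q l' - ((l : ℝ) + 1) * ga m q = ((l' : ℝ) + 1 / 2 - (l + 1)) * ga m q := by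
        unfold sL; ring
      rw [this]
      apply mul_pos _ hg
      linarith
    have e5 : sL m q l' - ((l : ℝ) + 1) * ga m q ≤ ((m : ℝ) + 1) * ga m q := by
      have h6 := sL_le (q := q) hlm'
      have h7 : 0 ≤ ((l : ℝ) + 1) * ga m q := by positivity
      linarith
    have e0 : ta m 0 = 0 := by unfold ta; simp
    have h1' : ta m 0 + (((0 : ℕ) : ℝ) + 1) < ta m b +
      -(Q + tc k') / (sL m q l' - ((l : ℝ) + 1) * ga m q) := h1
    rw [e0, neg_div] at h1'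
    have h8 : WW m q ≤ (Q + tc k') / (sL m q l' - ((l : ℝ) + 1) * ga m q) := by
      rw [le_div_iff₀ e4]
      have h9 : WW m q * (sL m q l' - ((l : ℝ) + 1) * ga m q) ≤
          WW m q * (((m : ℝ) + 1) * ga m q) := mul_le_mul_of_nonneg_left e5 (by linarith)
      nlinarith
    push_cast at h1'
    linarith
  obtain ⟨i0, hi0⟩ : ∃ i0 : Fin n, eqv i0 = Sum.inl (⟨0, hp0⟩, ⟨0, by omega⟩) :=
    ⟨eqv.symm _, eqv.apply_symm_apply _⟩
  obtain ⟨i1, hi1⟩ : ∃ i1 : Fin n, eqv i1 = Sum.inl (⟨0, hp0⟩, ⟨1, by omega⟩) :=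
    ⟨eqv.symm _, eqv.apply_symm_apply _⟩
  have h01 : i0 ≠ i1 := by
    intro h
    rw [h, hi1] at hi0
    simp at hi0
  have hfin := card_le_g F hF hdis (κ := (Fin p → Fin (m ^ 2 + 1)) × (Fin q → Fin (m + 1)))
    B V (fun z => by rw [hV]; exact dl_ne σ _ _)
    (fun z i => ⟨_, hmem z i⟩)
    i0 i1
    (fun z => by
      rw [hord z, hi0, hi1, hA, hA]
      refine ⟨h01, ?_⟩
      simp only [am]
      norm_num)
    (fun z z' h => by
      have e1 : z.1 = z'.1 := by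
        funext a
        rcases lt_trichotomy (z.1 a : ℕ) (z'.1 a) with hlt | heq | hlt
        · exact (key1 _ _ a hlt h).elim
        · exact Fin.ext heq
        · exact (key1 _ _ a hlt h.symm).elim
      have e2 : z.2 = z'.2 := by
        funext b
        rcases lt_trichotomy (z.2 b : ℕ) (z'.2 b) with hlt | heq | hlt
        · exact (key2 _ _ b hlt h).elim
        · exact Fin.ext heq
        · exact (key2 _ _ b hlt h.symm).elim
      exact Prod.ext e1 e2)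
  simpa using hfin

/-- the polynomial lower bound -/
theorem poly_bound {d : ℕ} (hd : 3 ≤ d) (n : ℕ) (hn : 3 * (d - 1) ≤ n) :
    n ^ (3 * (d - 1) / 2) ≤
      2 ^ ((d - 1) / 2) * (3 * (d - 1) / 2) ^ (3 * (d - 1) / 2) * g d n := by
  obtain ⟨p, hp⟩ : ∃ p, p = (d - 1) / 2 := ⟨_, rfl⟩
  obtain ⟨q, hq⟩ : ∃ q, q = d - 1 - (d - 1) / 2 := ⟨_, rfl⟩
  obtain ⟨D, hD⟩ : ∃ D, D = 3 * (d - 1) / 2 := ⟨_, rfl⟩
  have hDpq : D = 2 * p + q := by omega
  have hp1 : 1 ≤ p := by omega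
  have hpq : p ≤ q := by omega
  have hdd : d = p + q + 1 := by omega
  have hD0 : 0 < D := by omega
  rw [← hp, ← hD]
  obtain ⟨m, r, hm, hr, h⟩ : ∃ m r : ℕ, 2 ≤ m ∧ r < D ∧ n = D * m + r := by
    refine ⟨n / D, n % D, ?_, Nat.mod_lt _ hD0, (Nat.div_add_mod n D).symm⟩
    rw [Nat.le_div_iff_mul_le hD0]
    omega
  have h1 := main_countG (d := d) hdd hp1 hpq hm (r := r) (n := n) (by rw [h, hDpq])
  have h2 : n ≤ D * (m + 1) := by
    rw [h]; nlinarith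
  have h3 : (m + 1) ^ 2 ≤ 2 * (m ^ 2 + 1) := by
    nlinarith [sq_nonneg ((m:ℤ) - 1)]
  calc n ^ D ≤ (D * (m + 1)) ^ D := Nat.pow_le_pow_left h2 D
    _ = D ^ D * (((m + 1) ^ 2) ^ p * (m + 1) ^ q) := by
        rw [mul_pow, ← pow_mul, ← pow_add, ← hDpq]
    _ ≤ D ^ D * ((2 * (m ^ 2 + 1)) ^ p * (m + 1) ^ q) := by
        gcongr
    _ = 2 ^ p * D ^ D * ((m ^ 2 + 1) ^ p * (m + 1) ^ q) := by
        rw [mul_pow]; ring
    _ ≤ 2 ^ p * D ^ D * g d n := Nat.mul_le_mul_left _ h1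

end Pool.Agent.Y423.GP
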